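import Pool.Agent.H52R3.CylDef

set_option autoImplicit false

/-!
# Covering ellipsoids by cylinders: `c(d,2) = 1`, and a lower bound for all `k ≥ 2`
-/

namespace Pool.Agent.Results.MP_15cfc2_co.CodimTwoValue

open Module Pool.Agent.H52R3.CylDef

/-- `c(d,2) = 1` for every `d ≥ 3`, and
`c(d,k) ≥ Γ(k/2) Γ((d-k)/2+1) / Γ(d/2)` whenever `2 ≤ k < d`. -/
theorem result :
    (∀ d : ℕ, 3 ≤ d → IsGreatest (Good (EuclideanSpace ℝ (Fin d)) 2) 1) ∧
    (∀ d k : ℕ, 2 ≤ k → k < d →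
      Real.Gamma (k / 2) * Real.Gamma ((d - k) / 2 + 1) / Real.Gamma (d / 2) ∈
        Good (EuclideanSpace ℝ (Fin d)) k) := by
  have h2 : ∀ d k : ℕ, 2 ≤ k → k < d →
      Real.Gamma (k / 2) * Real.Gamma ((d - k) / 2 + 1) / Real.Gamma (d / 2) ∈
        Good (EuclideanSpace ℝ (Fin d)) k := by
    intro d k hk hkd
    have h := gamma_mem_good (V := EuclideanSpace ℝ (Fin d)) hk (by simpa using hkd)
    rw [finrank_euclideanSpace_fin] at h
    exact h
  refine ⟨fun d hd => ⟨?_, ?_⟩, h2⟩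
  · have h := h2 d 2 le_rfl (by omega)
    have hdR : (3 : ℝ) ≤ d := by exact_mod_cast hd
    have h3 : (d : ℝ) / 2 = ((d : ℝ) - (2 : ℕ)) / 2 + 1 := by
      push_cast
      ring
    have h4 : 0 < Real.Gamma ((d : ℝ) / 2) := Real.Gamma_pos_of_pos (by linarith)
    have h5 : ((2 : ℕ) : ℝ) / 2 = 1 := by norm_num
    rw [h5, Real.Gamma_one, one_mul, ← h3, div_self h4.ne'] at h
    exact h
  · intro c hc
    exact good_le_one (V := EuclideanSpace ℝ (Fin d)) (by
      rw [finrank_euclideanSpace_fin]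
      omega) hc

end Pool.Agent.Results.MP_15cfc2_co.CodimTwoValue
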