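import Pool.Agent.H52R3.Cyl16

set_option autoImplicit false

/-!
# Covering ellipsoids by cylinders: the values given by the Hopf fibrations

`c(4n,4) = 1/(2n-1)` for `n ≥ 2`, `c(16,8) = 1/35`, and
`c(d,k) ≤ 1/(2⌊(d-k)/4⌋+1)` whenever `k ≥ 4` and `d - k ≥ 4`.
-/

namespace Pool.Agent.Results.MP_15cfc2_co.HopfValues

open Module Pool.Agent.H52R3.CylDef

theorem result :
    (∀ n : ℕ, 2 ≤ n →
      IsGreatest (Good (EuclideanSpace ℝ (Fin (4 * n))) 4) (1 / (2 * (n : ℝ) - 1))) ∧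
    IsGreatest (Good (EuclideanSpace ℝ (Fin 16)) 8) (1 / 35) ∧
    (∀ d k : ℕ, 4 ≤ k → k + 4 ≤ d → ∀ c ∈ Good (EuclideanSpace ℝ (Fin d)) k,
      c ≤ 1 / (2 * (((d - k) / 4 : ℕ) : ℝ) + 1)) ∧
    (∀ d k : ℕ, 8 ≤ k → k + 8 ≤ d → ∀ c ∈ Good (EuclideanSpace ℝ (Fin d)) k, c ≤ 1 / 35) :=
  ⟨Pool.Agent.H52R3.Cyl.isGreatest_four, Pool.Agent.H52R3.Cyl.isGreatest_eight,
    fun d k hk hkd _ hc => Pool.Agent.H52R3.Cyl.upper_all d k hk hkd hc,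
    fun d k hk hkd _ hc => Pool.Agent.H52R3.Cyl.upper_eight d k hk hkd hc⟩

end Pool.Agent.Results.MP_15cfc2_co.HopfValues
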