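import Pool.Agent.H52R3.Cyl20

set_option autoImplicit false

/-!
# Covering ellipsoids by cylinders: `c(d,k)` up to a factor of order `d log d`, for all `k`
-/

namespace Pool.Agent.Results.MP_15cfc2_co.TwoSidedBound

open Module Pool.Agent.H52R3.CylDef

/-- the constant `c(d,k)` -/
noncomputable def cylConst (d k : ℕ) : ℝ := sSup (Good (EuclideanSpace ℝ (Fin d)) k)

/-- `1 / binom(d/2-1, k/2-1)`, written with Gamma values -/
noncomputable def gammaBound (d k : ℕ) : ℝ :=
  Real.Gamma (k / 2) * Real.Gamma ((d - k) / 2 + 1) / Real.Gamma (d / 2)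

/-- For all `2 ≤ k < d` the number `c(d,k)` is the largest real with the property of the problem,
and it agrees with `gammaBound d k` up to the factor `e^{5/2} (d log (2 d^{3/2}) + 1)`. -/
theorem result (d k : ℕ) (hk : 2 ≤ k) (hkd : k < d) :
    IsGreatest (Good (EuclideanSpace ℝ (Fin d)) k) (cylConst d k) ∧
    gammaBound d k ≤ cylConst d k ∧
    cylConst d k ≤ Real.exp (5 / 2) * (d * Real.log (2 * (d * √d)) + 1) * gammaBound d k := by
  have hfr : finrank ℝ (EuclideanSpace ℝ (Fin d)) = d := finrank_euclideanSpace_fin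
  have hmem : gammaBound d k ∈ Good (EuclideanSpace ℝ (Fin d)) k := by
    have h := gamma_mem_good (V := EuclideanSpace ℝ (Fin d)) hk (by rw [hfr]; exact hkd)
    rw [hfr] at h
    exact h
  have hbdd : BddAbove (Good (EuclideanSpace ℝ (Fin d)) k) :=
    ⟨1, fun c hc => good_le_one (V := EuclideanSpace ℝ (Fin d)) (by rw [hfr]; exact hkd.le) hc⟩
  have hclosed : IsClosed (Good (EuclideanSpace ℝ (Fin d)) k) := by
    unfold Good
    simp only [Set.ofPred_forall]
    refine isClosed_iInter fun K => isClosed_iInter fun _ => isClosed_iInter fun N =>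
      isClosed_iInter fun C => isClosed_iInter fun _ => ?_
    exact isClosed_le ENNReal.continuous_ofReal continuous_const
  have hgr : cylConst d k ∈ Good (EuclideanSpace ℝ (Fin d)) k :=
    hclosed.csSup_mem ⟨_, hmem⟩ hbdd
  refine ⟨⟨hgr, fun c hc => le_csSup hbdd hc⟩, le_csSup hbdd hmem, ?_⟩
  have h := Pool.Agent.H52R3.Cyl.good_le_log (E := EuclideanSpace ℝ (Fin d))
    (k := k) (by omega) (by rw [hfr]; exact hkd) hgr
  rw [Pool.Agent.H52R3.Cyl.kap_div_aa (by omega) (by rw [hfr]; exact hkd), hfr] at h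
  exact h

end Pool.Agent.Results.MP_15cfc2_co.TwoSidedBound
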